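import Pool.Agent.H23.PhjAmp

set_option autoImplicit false

namespace Pool.Agent.Results.MP_b39aa3_co.TwoFifths

open Finset Pool.Agent.H23.Phj

/-- the pairs of `[n]` -/
abbrev P (n : ℕ) := {p : Fin n × Fin n // p.1 < p.2}

/-- the edge set of the complete graph on `S` -/
def clique {n : ℕ} (S : Finset (Fin n)) : Finset (P n) :=
  univ.filter fun p => p.1.1 ∈ S ∧ p.1.2 ∈ S

/-- `(G₁, G₂)` is a clique step -/
def Step {n : ℕ} (G₁ G₂ : Finset (P n)) : Prop :=
  G₂ ⊆ G₁ ∧ ∃ S : Finset (Fin n), 2 ≤ S.card ∧ G₁ \ G₂ = clique S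

lemma cardP (n : ℕ) : Fintype.card (P n) = n.choose 2 := by
  rw [Fintype.card_subtype, ← Finset.univ_product_univ, Finset.card_product_filter_lt]
  simp

lemma card_clique {n : ℕ} (S : Finset (Fin n)) : (clique S).card = S.card.choose 2 := by
  rw [← Finset.card_product_filter_lt, ← Finset.card_image_of_injective _ Subtype.val_injective]
  congr 1
  ext p
  simp only [clique, Finset.mem_image, Finset.mem_filter, Finset.mem_univ, true_and,
    Finset.mem_product]
  constructor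
  · rintro ⟨q, hq, rfl⟩; exact ⟨hq, q.2⟩
  · rintro ⟨h1, h2⟩; exact ⟨⟨p, h2⟩, h1, rfl⟩

def C (n t : ℕ) (U : Finset ℕ) : Finset (P n) := clique (Gam n (4 * t) U)

lemma mem_C (n t : ℕ) (U : Finset ℕ) (p : P n) : p ∈ C n t U ↔
    (4 * t ≤ p.1.1.val ∧ p.1.1.val - 4 * t ∈ U) ∧ (4 * t ≤ p.1.2.val ∧ p.1.2.val - 4 * t ∈ U) := by
  simp [C, clique, Gam]

def W (n t : ℕ) : ℕ → Finset (P n)
  | 0 => ∅
  | 1 => C n t {0, 1, 2}
  | 2 => C n t {0, 1, 2} ∪ C n t {0, 3}
  | 3 => C n t {0, 1, 2} ∪ C n t {0, 3} ∪ C n t {1, 3}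
  | _ => C n t (range 4)

lemma W_sub (n t k : ℕ) : W n t k ⊆ C n t (range 4) := by
  intro p
  match k with
  | 0 => simp [W]
  | 1 => simp only [W, mem_C, mem_insert, mem_singleton, mem_range]; omega
  | 2 => simp only [W, mem_C, mem_insert, mem_singleton, mem_range, mem_union]; omega
  | 3 => simp only [W, mem_C, mem_insert, mem_singleton, mem_range, mem_union]; omega
  | _ + 4 => simp only [W]; exact id

lemma two_le (n t a b : ℕ) (U : Finset ℕ) (h : 4 * t + 4 ≤ n) (ha : a ∈ U) (hb : b ∈ U)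
    (hab : a < b) (h4 : b < 4) : 2 ≤ (Gam n (4 * t) U).card :=
  Finset.one_lt_card.2 ⟨⟨4 * t + a, by omega⟩, by simp [Gam, ha], ⟨4 * t + b, by omega⟩,
    by simp [Gam, hb], by simp; omega⟩

lemma step (n t : ℕ) (A : Finset (P n)) (k l : ℕ) (U : Finset ℕ)
    (h2 : 2 ≤ (Gam n (4 * t) U).card) (hs : W n t k ⊆ W n t l)
    (hd : ∀ p, (p ∈ W n t l ∧ p ∉ W n t k) ↔ p ∈ C n t U) :
    Step (A \ C n t (range 4) ∪ W n t l) (A \ C n t (range 4) ∪ W n t k) := by
  refine ⟨Finset.union_subset_union_right hs, _, h2, ?_⟩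
  ext p
  have h1 := hd p
  have h3 := @W_sub n t l p
  change _ ↔ p ∈ C n t U
  simp only [mem_sdiff, mem_union]
  tauto

lemma five (a b c d e : Prop) [Decidable a] [Decidable b] [Decidable c] [Decidable d]
    [Decidable e] (h1 : b → a → False) (h2 : e → a → False) (h3 : c → b → False)
    (h4 : d → c → False) (h5 : e → d → False) :
    (0 : ℝ) + (if a then 1 else 0) + (if b then 1 else 0) + (if c then 1 else 0) +
      (if d then 1 else 0) + (if e then 1 else 0) ≤ 2 / 5 * ((5 : ℕ) : ℝ) := by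
  split_ifs <;> first | (exfalso; tauto) | norm_num

lemma cyc (n t : ℕ) (h4 : 4 * t + 4 ≤ n) (F : Finset (Finset (P n)))
    (hno : ∀ G₁ ∈ F, ∀ G₂ ∈ F, ¬ Step G₁ G₂) (A : Finset (P n)) :
    ∑ k ∈ range 5, (if A \ C n t (range 4) ∪ W n t k ∈ F then (1 : ℝ) else 0) ≤
      2 / 5 * ((5 : ℕ) : ℝ) := by
  have s01 := step n t A 0 1 {0, 1, 2} (two_le n t 0 1 _ h4 (by simp) (by simp) (by omega)
    (by omega)) (by simp [W]) (by simp [W])
  have s04 := step n t A 0 4 (range 4) (two_le n t 0 1 _ h4 (by simp) (by simp) (by omega)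
    (by omega)) (by simp [W]) (by simp [W])
  have s12 := step n t A 1 2 {0, 3} (two_le n t 0 3 _ h4 (by simp) (by simp) (by omega)
    (by omega)) (by simp [W]) (fun p => by
      have : p.1.1.val < p.1.2.val := p.2
      simp only [W, mem_C, mem_insert, mem_singleton, mem_union]; omega)
  have s23 := step n t A 2 3 {1, 3} (two_le n t 1 3 _ h4 (by simp) (by simp) (by omega)
    (by omega)) (by simp only [W]; exact Finset.subset_union_left) (fun p => by
      have : p.1.1.val < p.1.2.val := p.2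
      simp only [W, mem_C, mem_insert, mem_singleton, mem_union]; omega)
  have s34 := step n t A 3 4 {2, 3} (two_le n t 2 3 _ h4 (by simp) (by simp) (by omega)
    (by omega)) (W_sub n t 3) (fun p => by
      have : p.1.1.val < p.1.2.val := p.2
      simp only [W, mem_C, mem_insert, mem_singleton, mem_union, mem_range]; omega)
  simp only [Finset.sum_range_succ, Finset.sum_range_zero]
  exact five _ _ _ _ _ (fun h1 h0 => hno _ h1 _ h0 s01) (fun h1 h0 => hno _ h1 _ h0 s04)
    (fun h1 h0 => hno _ h1 _ h0 s12) (fun h1 h0 => hno _ h1 _ h0 s23)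
    (fun h1 h0 => hno _ h1 _ h0 s34)

theorem result : ∀ c : ℝ, 2 / 5 < c → ∃ n₀ : ℕ, ∀ n ≥ n₀, ∀ F : Finset (Finset (P n)),
    c * 2 ^ n.choose 2 ≤ F.card → ∃ G₁ ∈ F, ∃ G₂ ∈ F, Step G₁ G₂ := by
  intro c hc
  obtain ⟨K, hK⟩ := exists_K 6 (c - 2 / 5) (by linarith)
  refine ⟨4 * K, fun n hn F hF => ?_⟩
  by_contra hno
  push Not at hno
  have key := amp 6 5 (by norm_num) (2 / 5) (by norm_num) (fun t => C n t (range 4)) (W n) K
    (fun t ht => by
      rw [C, card_clique, card_Gam n (4 * t) 4 (by omega)]; rfl)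
    (fun t _ k => W_sub n t k)
    (fun t _ u _ htu => Finset.disjoint_left.2 fun p => by
      simp only [mem_C, mem_range]; omega)
    (fun A => if A ∈ F then 1 else 0) (fun A => by split_ifs <;> norm_num)
    (fun t ht A => cyc n t (by omega) F hno A)
  rw [cardP, Finset.sum_boole] at key
  simp only [Finset.filter_univ_mem] at key
  have hp : (0 : ℝ) < 2 ^ n.choose 2 := by positivity
  have h1 : (2 / 5 + (1 - 1 / 2 ^ 6) ^ K : ℝ) * 2 ^ n.choose 2 < c * 2 ^ n.choose 2 :=
    mul_lt_mul_of_pos_right (by linarith) hp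
  linarith

end Pool.Agent.Results.MP_b39aa3_co.TwoFifths
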